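import Pool.Agent.Lib.MP_f20cd2_co.DP.MainQ

set_option autoImplicit false

namespace Pool.Agent.Variants.MP_f20cd2_co.AlmostAP

open Pool.Agent.Lib.MP_f20cd2_co.DP

theorem result (ε : ℝ) (hε : 0 < ε) : ∃ t C : ℕ, ∀ (V : Type) [Finite V] (G : SimpleGraph V),
    (∀ S : Set V, 1 < Nat.card (G.induce Sᶜ).ConnectedComponent →
      t * Nat.card (G.induce Sᶜ).ConnectedComponent ≤ S.ncard) →
    ∀ (k : ℕ) (a : Fin k → ℕ), (∀ i, 0 < a i) → ∑ i, a i = Nat.card V →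
      ∃ f : V → Fin k, (∀ i, (G.induce (f ⁻¹' {i})).Connected ∧
        (f ⁻¹' {i}).ncard ≤ a i + C ∧ a i ≤ (f ⁻¹' {i}).ncard + C) ∧
        ({i | (f ⁻¹' {i}).ncard ≠ a i}.ncard : ℝ) ≤ ε * k :=
  almost_ap ε hε

end Pool.Agent.Variants.MP_f20cd2_co.AlmostAP
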