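import Pool.Agent.Lib.MP_f20cd2_co.H83Grow

set_option autoImplicit false

namespace Pool.Agent.Variants.MP_f20cd2_co.BoundedParts

open Pool.Agent.Lib.MP_f20cd2_co.H83

theorem result (t : ℝ) (ht : 0 < t) (V : Type) [Finite V] (G : SimpleGraph V)
    (hG : ∀ S : Set V, 1 < Nat.card (G.induce Sᶜ).ConnectedComponent →
      t * Nat.card (G.induce Sᶜ).ConnectedComponent ≤ S.ncard)
    (k : ℕ) (a : Fin k → ℕ) (hpos : ∀ i, 0 < a i) (hsum : ∑ i, a i = Nat.card V)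
    (i₀ : Fin k) (hsmall : ∀ i, i ≠ i₀ → (a i : ℝ) ≤ t + 1) :
    ∃ f : V → Fin k, ∀ i, (f ⁻¹' {i}).ncard = a i ∧ (G.induce (f ⁻¹' {i})).Connected := by
  classical
  have := Fintype.ofFinite V
  refine realise (k := ⌊t⌋₊) ht hG (Nat.floor_le ht.le) hpos
    (hsum.trans Nat.card_eq_fintype_card) (i0 := i₀) fun i hi => ?_
  rw [← Nat.floor_add_one ht.le]
  exact Nat.le_floor (hsmall i hi)

end Pool.Agent.Variants.MP_f20cd2_co.BoundedParts
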