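import Pool.Agent.Lib.MP_f20cd2_co.PL.Main

set_option autoImplicit false

namespace Pool.Agent.Variants.MP_f20cd2_co.PolylogAP

open Pool.Agent.Lib.MP_f20cd2_co.PL

theorem result : ∃ (C : ℝ) (e : ℕ), 0 < C ∧ ∀ (V : Type) [Finite V] (G : SimpleGraph V),
    (∀ S : Set V, 1 < Nat.card (G.induce Sᶜ).ConnectedComponent →
      C * Real.log (Nat.card V) ^ e * Nat.card (G.induce Sᶜ).ConnectedComponent ≤ S.ncard) →
    ∀ (k : ℕ) (a : Fin k → ℕ), (∀ i, 0 < a i) → ∑ i, a i = Nat.card V →
      ∃ f : V → Fin k, ∀ i, (f ⁻¹' {i}).ncard = a i ∧ (G.induce (f ⁻¹' {i})).Connected := by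
  classical
  refine ⟨2000 ^ 760, 760, by positivity, fun V _ G hG k a hpos hsum => ?_⟩
  have := Fintype.ofFinite V
  rw [Nat.card_eq_fintype_card] at hG hsum
  refine fun_of_pack a hsum ?_
  by_cases h2 : 2 ≤ Fintype.card V
  · have hn : Fintype.card V < 2 ^ (Nat.log 2 (Fintype.card V) + 1000) :=
      (Nat.lt_pow_succ_log_self (by norm_num) _).trans_le
        (Nat.pow_le_pow_right (by norm_num) (by omega))
    have hR : (2 : ℝ) ≤ Fintype.card V := by exact_mod_cast h2
    have hl2 := Real.log_two_gt_d9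
    have h3 : Real.log 2 ≤ Real.log (Fintype.card V) := Real.log_le_log (by norm_num) hR
    have h4 : (Nat.log 2 (Fintype.card V) : ℝ) * Real.log 2 ≤ Real.log (Fintype.card V) := by
      rw [← Real.log_pow]
      refine Real.log_le_log (by positivity) ?_
      exact_mod_cast Nat.pow_log_le_self 2 (by omega)
    have h5 : ((Nat.log 2 (Fintype.card V) + 1000 : ℕ) : ℝ) ≤ 2000 * Real.log (Fintype.card V) := by
      have h6 : (0 : ℝ) ≤ Nat.log 2 (Fintype.card V) := Nat.cast_nonneg _
      have h7 : (Nat.log 2 (Fintype.card V) : ℝ) * (1 / 2) ≤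
          (Nat.log 2 (Fintype.card V) : ℝ) * Real.log 2 :=
        mul_le_mul_of_nonneg_left (by linarith) h6
      rw [Nat.cast_add, Nat.cast_ofNat]
      clear hG hn
      linarith
    refine main_thm _ (by omega) hn ((rt_of_tough (mul_nonneg (pow_nonneg (by norm_num) _)
      (pow_nonneg (Real.log_natCast_nonneg _) _)) hG).mono Finset.Subset.rfl ?_) a hpos hsum
    rw [← mul_pow]
    exact pow_le_pow_left₀ (Nat.cast_nonneg _) h5 _
  · refine pack_complete (fun u v huv => absurd ?_ h2) _ a (fun i _ => hpos i) hsum.le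
    exact Fintype.one_lt_card_iff.2 ⟨u, v, huv⟩

end Pool.Agent.Variants.MP_f20cd2_co.PolylogAP
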