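import Pool.Agent.Lib.MP_f20cd2_co.HM.RP

set_option autoImplicit false

namespace Pool.Agent.Variants.MP_f20cd2_co.PolylogRP

open Pool.Agent.Lib.MP_f20cd2_co.HM

theorem result : ∃ (C : ℝ) (e : ℕ), 0 < C ∧
    ∀ (V : Type) [Finite V] [Nonempty V] (G : SimpleGraph V),
    (∀ S : Set V, 1 < Nat.card (G.induce Sᶜ).ConnectedComponent →
      C * Real.log (Nat.card V) ^ e * Nat.card (G.induce Sᶜ).ConnectedComponent ≤ S.ncard) →
    RP G Set.univ := by
  classical
  refine ⟨2000 ^ 760, 760, by positivity, fun V _ _ G hG => ?_⟩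
  have := Fintype.ofFinite V
  rw [Nat.card_eq_fintype_card] at hG
  exact rp_log hG

end Pool.Agent.Variants.MP_f20cd2_co.PolylogRP
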